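import Pool.Agent.H32DG.SL
import Pool.Agent.H32DG.SUB
import Pool.Agent.H32DG.NET
import Pool.Agent.H32DG.QUO
import Pool.Agent.H32DG.MAP
import Pool.Agent.H32DG.SUR
import Pool.Agent.H32DG.ISO
import Pool.Agent.H32DG.UDP
import Pool.Agent.H32DG.UU
import Pool.Agent.H32DG.FIN

/-!
# Separable Banach spaces with a complemented copy of `L₁[0,1]`, or of `ℓ₁(D)` for a space `D` with the Daugavet property,
# have the Daugavet property in an equivalent norm

So no such space can be a counterexample to Q1. For example `L₁[0,1] ⊕ Z` and `ℓ₁(D) ⊕ Z` have the Daugavet property in an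
equivalent norm for ALL separable Banach spaces `Z` (also for `Z` with the Radon-Nikodym property, `Z = c₀`, etc.).

Proof. Let `D` have the Daugavet property, `v ∈ D`, and let `K` be a closed subspace of `ℓ₁(D)` all of whose elements have
coordinates in `ℝ v`. Then `ℓ₁(D) / K` has the Daugavet property: a functional of norm one on the quotient, composed with the quotient
map, has almost norm one on one of the coordinate copies of `D`, and in this copy there is an element `u` of the unit ball in the
given slice which is almost `ℓ₁`-orthogonal to the span of `v` and of the coordinate of a given element `f₀` (this span has finite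
dimension); so `u` is almost `ℓ₁`-orthogonal to `f₀ + K`. Now let `Z` be separable, let `q : ℓ₁ → Z × ℓ₁` be a
surjection and `φ(v) = 1`. The map `Q w = (q₁ c, v q₂ c + (w - c v))`, `c = φ(w)`, of `ℓ₁(D)` to `Z × ℓ₁(D)` is surjective and its kernel is a
space `K` as above. The quotient norm is the norm on `Z × ℓ₁(D)`. Finally `ℓ₁(L₁[0,1]) ≅ L₁[0,1]`.
-/

set_option autoImplicit false

open MeasureTheory
open scoped ENNReal

namespace Pool.Agent.Results.MP_e11434_an.ComplementedDaugavet

/-- The Daugavet property of `Y`: `‖I + T‖ = 1 + ‖T‖` for all operators `T = f ⊗ v` of rank one. -/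
def Daugavet (Y : Type) [NormedAddCommGroup Y] [NormedSpace ℝ Y] : Prop :=
  ∀ (f : Y →L[ℝ] ℝ) (v : Y), ‖ContinuousLinearMap.id ℝ Y + f.smulRight v‖ = 1 + ‖f.smulRight v‖

/-- `X` has the Daugavet property in an equivalent norm. -/
def DaugavetRenorming (X : Type) [NormedAddCommGroup X] [NormedSpace ℝ X] : Prop :=
  ∃ (Y : Type) (_ : NormedAddCommGroup Y) (_ : NormedSpace ℝ Y), Nonempty (X ≃L[ℝ] Y) ∧ Daugavet Y

/-- `X` has a complemented subspace which is isomorphic to `E`. -/
def HasComplementedCopy (X E : Type) [NormedAddCommGroup X] [NormedSpace ℝ X]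
    [NormedAddCommGroup E] [NormedSpace ℝ E] : Prop :=
  ∃ (i : E →L[ℝ] X) (r : X →L[ℝ] E), ∀ w, r (i w) = w

theorem result (X : Type) [NormedAddCommGroup X] [NormedSpace ℝ X] [CompleteSpace X]
    [TopologicalSpace.SeparableSpace X] :
    (∀ (D : Type) [NormedAddCommGroup D] [NormedSpace ℝ D] [CompleteSpace D], Daugavet D →
      HasComplementedCopy X (lp (fun _ : ℕ => D) 1) → DaugavetRenorming X) ∧
    (HasComplementedCopy X (Lp ℝ 1 (volume.restrict (Set.Icc (0 : ℝ) 1))) → DaugavetRenorming X) := by
  have hNET : Pool.Agent.H32DG.S_NET := Pool.Agent.H32DG.NET.t Pool.Agent.H32DG.SUB.t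
  have hQUO : Pool.Agent.H32DG.S_QUO := Pool.Agent.H32DG.QUO.t Pool.Agent.H32DG.SL.t hNET
  have hISO : Pool.Agent.H32DG.S_ISO := Pool.Agent.H32DG.ISO.t Pool.Agent.H32DG.MAP.t Pool.Agent.H32DG.SUR.t
  have hFIN : Pool.Agent.H32DG.S_FIN := Pool.Agent.H32DG.FIN.t hQUO hISO
    (Pool.Agent.H32DG.UDP.t Pool.Agent.H32DG.SL.t) Pool.Agent.H32DG.UU.t
  refine ⟨fun D _ _ _ hD ⟨i, r, h⟩ => ?_, fun ⟨i, r, h⟩ => ?_⟩
  · exact hFIN.1 X D hD i r h
  · exact hFIN.2 X i r h

end Pool.Agent.Results.MP_e11434_an.ComplementedDaugavet
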